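import Pool.Agent.Helper10K1.ML.Fin2
import Pool.Agent.Helper19.ML.SC
import Pool.Agent.Helper19.ML.ACT
import Pool.Agent.Helper28K1.ML.Res
import Pool.Agent.Helper46.ML.PRIM
import Pool.Agent.Helper57K1.ML.UP
import Pool.Agent.Helper64.ML.DOWN
import Pool.Agent.Helper50.ML.P1
import Pool.Agent.Helper24.ML.P2

/-!
# The symbol length of Massey products is bounded

Let `p` be a prime and `n ≥ 2`. By an ultraproduct argument the symbol lengths of the elements of the
`n`-fold Massey products of classes in `H¹(G_F(p), ℤ/p)`, for all fields `F` which contain a primitive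
`p`-th root of unity, are bounded by a number which depends only on `n` and `p`, if (and only if) all
of them are finite. They are finite by the theorem of Merkurjev and Suslin, by which the symbol
length is defined.

The proof. A defining system is a homomorphism from `G_F(p)` to a fixed finite group `Q`. Suppose that
there are such homomorphisms `ρ_N`, over fields `F_N`, for which the symbol length is larger than `N`.
Let `L` be an ultraproduct of the fields `F_N`. Sequences of elements of the absolute Galois groups of
the `F_N` act on the ultraproduct of the separable closures, and so on the separable closure of `L`; in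
this way the `ρ_N` give a homomorphism `σ` from the Galois group of `L` to `Q`, hence a defining system
over `L`, and the expression of its value as a sum of `m` cup products, which factors through a finite
group, gives such an expression over `F_N` for almost all `N`.

Proved together with helper19, helper24, helper28, helper46, helper50, helper57, helper64.
-/

set_option autoImplicit false

namespace Pool.Agent.Results.MP_fac77f_nt.UniformBound

open Pool.Agent.Helper10K1.ML

universe u

/-- The maximal pro-`p` Galois group of `F`. -/
def GF (p : ℕ) (F : Type u) [Field F] : Type u := Gp p F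

/-- The group structure of the quotient group. -/
noncomputable instance instGroupGF (p : ℕ) (F : Type u) [Field F] : Group (GF p F) :=
  QuotientGroup.Quotient.group (Np p (G F))

/-- The quotient topology. -/
noncomputable instance instTopologicalSpaceGF (p : ℕ) (F : Type u) [Field F] :
    TopologicalSpace (GF p F) :=
  QuotientGroup.instTopologicalSpace (Np p (G F))

/-- The symbol length of a 2-cochain `c`: the least `m` such that `c` is, up to a coboundary, the sum
of `m` cup products of elements of `H¹(Γ, ℤ/p)`, and `⊤` if there is none. -/
noncomputable def symbolLength (p : ℕ) {Γ : Type u} [Group Γ] [TopologicalSpace Γ]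
    (c : Γ → Γ → ZMod p) : ℕ∞ :=
  ⨅ (m : ℕ) (_ : SL p m c), (m : ℕ∞)

theorem symbolLength_le {p M : ℕ} {Γ : Type u} [Group Γ] [TopologicalSpace Γ]
    {c : Γ → Γ → ZMod p} : SL p M c → symbolLength p c ≤ M :=
  fun h => iInf₂_le M h

theorem exists_of_lt_top {p : ℕ} {Γ : Type u} [Group Γ] [TopologicalSpace Γ]
    {c : Γ → Γ → ZMod p} (h : symbolLength p c < ⊤) : ∃ m, SL p m c := by
  rw [symbolLength] at h
  simp only [iInf_lt_iff] at h
  obtain ⟨m, hm, -⟩ := h
  exact ⟨m, hm⟩

theorem mainq2 : MAINQ2.{u} :=
  t_MAIN2 Helper19.ML.t_SC Helper19.ML.t_ACT Helper28K1.ML.t_RES Helper46.ML.t_PRIM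
    Helper57K1.ML.t_UP Helper64.ML.t_DOWN Helper50.ML.t_P1 Helper24.ML.t_P2

/-- **The symbol lengths of the elements of the `n`-fold Massey products are bounded in terms of `n`
and `p` if and only if they are finite.** `GF p F` is the maximal pro-`p` quotient of the absolute
Galois group of `F`, `a` is a defining system for `φ 0, …, φ (n - 1)` and `val p n a` its value. -/
theorem result (p n : ℕ) (hp : p.Prime) (_hn : 2 ≤ n) :
    (∃ M : ℕ, ∀ (F : Type u) [Field F] (ζ : F), IsPrimitiveRoot ζ p →
      ∀ (φ : ℕ → GF p F → ZMod p) (a : ℕ → ℕ → GF p F → ZMod p), DefSys p n φ a →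
        symbolLength p (val p n a) ≤ M) ↔
    ∀ (F : Type u) [Field F] (ζ : F), IsPrimitiveRoot ζ p →
      ∀ (φ : ℕ → GF p F → ZMod p) (a : ℕ → ℕ → GF p F → ZMod p), DefSys p n φ a →
        symbolLength p (val p n a) < ⊤ := by
  constructor
  · rintro ⟨M, hM⟩ F _ ζ hζ φ a h
    exact lt_of_le_of_lt (hM F ζ hζ φ a h) (ENat.natCast_lt_top M)
  · intro hfin
    obtain ⟨M, hM⟩ := t_FIN2 mainq2 p n hp fun F _ ζ hζ φ a h =>
      exists_of_lt_top (hfin F ζ hζ φ a h)
    exact ⟨M, fun F _ ζ hζ φ a h => symbolLength_le (hM F ζ hζ φ a h)⟩

end Pool.Agent.Results.MP_fac77f_nt.UniformBound
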